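import Mathlib
import Pool.Agent.N459.HW.TK
import Pool.Agent.N178.HX.StmE

/-!
# Matrices which kill all invariant tensors: combinations of the conjugates of the complex structure
-/

set_option linter.unusedSectionVars false

namespace Pool.Agent.N459.HX

open Finset Matrix Module Pool.Agent.W437.HC Pool.Agent.W437.HD Pool.Agent.Y90 Pool.Agent.R915
open Pool.Agent.W548.Odd hiding cv
open Pool.Agent.H204R3.SP (Kills bil2 bil2_apply IsTate)
open Pool.Agent.W522.U (exists_reps exists_st Du)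
open Pool.Agent.N459.HW

noncomputable section

section main

variable {g : ℕ} {Z : Matrix (Fin g) (Fin g) ℂ}
variable (h : PM Z) {N : Matrix (Fin g ⊕ Fin g) (Fin g ⊕ Fin g) ℂ}
  (hN : ∀ c, Pool.Agent.Y4.H.Ct Z c → N * c = c * N)
include h hN

/-- Balanced products of determinants are killed. -/
theorem det_N {τ : Submodule ℂ (Fin g ⊕ Fin g → ℂ) → ℂ}
    (htr : ∀ W, IrS (LZ Z) W → ∀ hN : ∀ u ∈ W, mulVecLin N u ∈ W,
      LinearMap.trace ℂ W ((mulVecLin N).restrict hN) = τ W)
    {S : Type} [Fintype S] (W : S → Submodule ℂ (Fin g ⊕ Fin g → ℂ))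
    (hW : ∀ q, IrS (LZ Z) (W q)) (hbal : ∑ q, τ (W q) = 0)
    (ι : S → Type) [∀ q, Fintype (ι q)] [∀ q, DecidableEq (ι q)] (f : ∀ q, Basis (ι q) ℂ (W q))
    (p : ∀ q, ι q → (Fin g ⊕ Fin g → ℂ) →ₗ[ℂ] W q)
    (hp : ∀ q y γ x, (p q y (RZ Z γ x) : Fin g ⊕ Fin g → ℂ) = RZ Z γ (p q y x))
    (ψ : MultilinearMap ℂ (fun _ : (Σ q, ι q) => Fin g ⊕ Fin g → ℂ) ℂ)
    (hψ : ∀ v, ψ v = ∏ q, (f q).det (fun y => p q y (v ⟨q, y⟩))) :
    ψ ∈ NK (ph _ N) (Σ q, ι q) := by
  classical
  have hst : ∀ q, ∀ u ∈ W q, mulVecLin N u ∈ W q := fun q => stab_N h hN (hW q).2.1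
  have hpN : ∀ q y x, p q y (N *ᵥ x) = ((mulVecLin N).restrict (hst q)) (p q y x) := by
    intro q y x
    apply Subtype.ext
    have h1 := (rz_equiv h stab_top ((W q).subtype.comp (p q y))).1 (fun γ u _ => hp q y γ u)
    exact comm_N h hN ((W q).subtype.comp (p q y)) (fun X hX u => h1 X hX u trivial) x
  intro i1 i2 v
  obtain rfl : i1 = Sigma.instFintype := Subsingleton.elim _ _
  rw [Fintype.sum_sigma]
  have e1 : ∀ q y, ψ (Function.update v ⟨q, y⟩ (ph _ N (v ⟨q, y⟩))) =
      (f q).det (Function.update (fun y => p q y (v ⟨q, y⟩)) y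
        (((mulVecLin N).restrict (hst q)) (p q y (v ⟨q, y⟩)))) *
      ∏ q' ∈ univ.erase q, (f q').det (fun y => p q' y (v ⟨q', y⟩)) := by
    intro q y
    rw [hψ, ← Finset.mul_prod_erase _ _ (Finset.mem_univ q)]
    congr 1
    · congr 1
      funext y'
      by_cases hy : y' = y
      · subst hy
        rw [Function.update_self, Function.update_self, ← hpN]
        rfl
      · rw [Function.update_of_ne hy, Function.update_of_ne]
        intro h3
        exact hy (by simpa using h3)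
    · refine Finset.prod_congr rfl fun q' hq' => ?_
      congr 1
      funext y'
      rw [Function.update_of_ne]
      intro h3
      exact Finset.ne_of_mem_erase hq' (congrArg Sigma.fst h3)
  have e2 : ∀ q, ∑ y, ψ (Function.update v ⟨q, y⟩ (ph _ N (v ⟨q, y⟩))) =
      τ (W q) * ψ v := by
    intro q
    rw [Finset.sum_congr rfl fun y _ => e1 q y, ← Finset.sum_mul, det_trace (f q), htr _ (hW q),
      mul_assoc, Finset.mul_prod_erase univ
        (fun q => (f q).det (fun y => p q y (v ⟨q, y⟩))) (Finset.mem_univ q), ← hψ]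
  rw [Finset.sum_congr rfl fun q _ => e2 q, ← Finset.sum_mul, hbal, zero_mul]

theorem inv_N (hs : LCF' Z) {s : Finset (ℂ ≃+* ℂ)} {lam : (ℂ ≃+* ℂ) → ℂ} (hsk : Nᵀ * Om g ℂ + Om g ℂ * N = 0)
    (htr : ∀ W, IrS (LZ Z) W → ∀ hN : ∀ u ∈ W, mulVecLin N u ∈ W,
      LinearMap.trace ℂ W ((mulVecLin N).restrict hN) = ∑ σ ∈ s, lam σ * tr Z (cjS σ W)) {m : ℕ}
    (φ : MultilinearMap ℂ (fun _ : Fin m × Fin 2 => Fin g ⊕ Fin g → ℂ) ℂ)
    (hφ : ∀ (γ : Gam (GG (LZ Z))) v, φ (fun k => RZ Z γ (v k)) = φ v) :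
    φ ∈ NK (ph _ N) (Fin m × Fin 2) := by
  have hSI : ∀ {U}, W522.U.SI (RZ Z) U ↔ IrS (LZ Z) U := fun {U} => si_iff h.genI
  obtain ⟨r, W, hW, hWW, hall⟩ := exists_reps (rz_proj h)
  obtain ⟨st, hst, hDu, hDu'⟩ := exists_st (χ := 1) (rz_proj h) (om g) om_nd (rz_om h) W hW hWW hall
  refine forms_mem' (χ := 1) (fun Δ hΔ => fi_top Δ hΔ) (om g) om_nd (rz_om h) ?_ ?_ ?_ (rz_proj h)
    W hW hWW hall st hst hDu hDu' (fun κ _ => NK (ph _ N) κ) (clo_NK _) (pair_N h hN hsk)
    ?_ φ ?_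
  · intro U hU hn
    exact rz_unip h ((loc2 h hs (hSI.1 hU)).1 hn).1
  · intro U hU hn
    exact rz_line h (hSI.1 hU) hn
  · intro U U' hU hU' hn _ ψ hT
    exact rz_twist h (hSI.1 hU) (hSI.1 hU') ((loc2 h hs (hSI.1 hU)).1 hn).2 ψ hT
  · intro a ha hag ι _ _ f p hp ψ hψ
    refine det_N h hN (τ := fun W => ∑ σ ∈ s, lam σ * tr Z (cjS σ W)) htr
      (fun q : (Σ i, Fin (a i).toNat) => W q.1) (fun q => hSI.1 (hW q.1)) ?_ ι f p hp ψ hψ
    rw [Finset.sum_comm]
    refine Finset.sum_eq_zero fun σ _ => ?_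
    rw [← Finset.mul_sum, ← Int.cast_sum,
      bal_sum h W (fun i => hSI.1 (hW i)) st hst hDu a ha hag σ, Int.cast_zero, mul_zero]
  · refine ⟨⊤, inferInstance, fun γ _ v => ?_⟩
    rw [MonoidHom.one_apply, one_pow, one_mul]
    exact hφ γ v

end main

theorem t_TKG : Pool.Agent.N178.HX.S_TKG := by
  classical
  intro g Z h hs N s lam hN hsk htr m c hc
  set φ := evalM c with hφ
  have hcf : CF φ = c := by
    funext I
    unfold CF
    rw [hφ, evalM_apply, evalF_single]
  have hinv : ∀ (γ : Gam (GG (LZ Z))) v, φ (fun k => RZ Z γ (v k)) = φ v := by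
    intro γ v
    refine inv_gam _ (fun D hD _ => ?_) γ v
    obtain ⟨X, hX, rfl⟩ := exists_GG hD
    refine kills_of_act ?_
    rw [hcf]
    exact hc X hX
  have key : Kills (ph _ N) φ := by
    rcases Nat.even_or_odd m with he | ho
    · obtain ⟨n, hn⟩ := he
      have e : Fin m ≃ Fin n × Fin 2 := Fintype.equivOfCardEq (by
        rw [Fintype.card_prod, Fintype.card_fin, Fintype.card_fin, Fintype.card_fin, hn]
        ring)
      have h1 := inv_N h hN hs hsk htr (φ.domDomCongr e) (fun γ v => by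
        rw [MultilinearMap.domDomCongr_apply, MultilinearMap.domDomCongr_apply]
        exact hinv γ _)
      have h2 : φ ∈ NK (ph _ N) (Fin m) := (clo_NK _).reindex e.symm h1 φ fun v => by
        rw [MultilinearMap.domDomCongr_apply]
        congr 1
        funext k
        simp
      exact h2 _ _
    · have h0 : φ = 0 := by
        refine MultilinearMap.ext fun v => ?_
        have h1 := hinv (gt (D := ph _ (DZ Z)) (by rw [← map_mul, DZ_sq h.det, map_one])
          (mem_GG.2 DZ_mem) (-1)) v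
        have h2 : (fun k => RZ Z (gt (D := ph _ (DZ Z)) (by rw [← map_mul, DZ_sq h.det, map_one])
          (mem_GG.2 DZ_mem) (-1)) (v k)) = fun k => (-1 : ℂ) • v k := by
          funext k
          change torE (ph _ (DZ Z)) (-1) (v k) = _
          rw [torE_apply]
          simp only [Units.val_neg, Units.val_one, inv_neg, inv_one]
          module
        rw [h2, MultilinearMap.map_smul_univ, Finset.prod_const, Finset.card_univ,
          Fintype.card_fin, Odd.neg_one_pow ho, neg_one_smul] at h1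
        have h3 : φ v = 0 := by linear_combination (-1 / 2 : ℂ) * h1
        rw [h3]
        rfl
      rw [h0]
      intro v
      exact Finset.sum_eq_zero fun k _ => rfl
  have h1 := act_of_kills key
  rwa [hcf] at h1

end

end Pool.Agent.N459.HX
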